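import Pool.Agent.TH580.LM.Fn
import Pool.Agent.TH580.ST.Glob
import Pool.Agent.W686.LP.Defs

set_option autoImplicit false

/-!
# Large `p` for all symmetric bodies: certificates and the statements of the pieces
-/

noncomputable section

namespace Pool.Agent.TH580.LM

open MeasureTheory Set Pool.Agent.TH580.HL Pool.Agent.TH580.ST
open H712MA H712MA.GB
open scoped ENNReal Matrix Pointwise

variable {n : ℕ} {ι κ : Type}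

/-- the polyhedron at the vertex `p i`: `⟨q j, w⟩ ≤ s j` for all facets `q j` through `p i` -/
def In (p : ι → Fin n → ℝ) (q : κ → Fin n → ℝ) (i : ι) (s : κ → ℝ) : Set (Fin n → ℝ) :=
  {w | ∀ j, p i ⬝ᵥ q j = 1 → q j ⬝ᵥ w ≤ s j}

/-- `max (⟨q j, w⟩ - s j) / 2` over the facets not through `p i` -/
def ta (p : ι → Fin n → ℝ) (q : κ → Fin n → ℝ) (i : ι) (s : κ → ℝ) (w : Fin n → ℝ) : ℝ :=
  ⨆ j : {j : κ // p i ⬝ᵥ q j = -1}, (q j ⬝ᵥ w - s j) / 2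

/-- the weighted Laplace transform of the polyhedron at `p i` -/
def Ph (p : ι → Fin n → ℝ) (q : κ → Fin n → ℝ) (i : ι) (z : ℝ) (s : κ → ℝ)
    (u : Fin n → ℝ) : ℝ≥0∞ :=
  ∫⁻ w in In p q i s, ENNReal.ofReal (Real.exp (u ⬝ᵥ w - z * ta p q i s w))

/-- A certificate for the polytope `H` with vertices `p i`, facets `q j` and incidence weights
`w i j`.  `u` is a random point of the boundary of the polar body (its law is the cone measure,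
`polar`), `v` the index of the vertex `p (v ω)` at which `u ω` is maximal, and `cert` bounds the
transforms `Ph` by an exponential of an affine function of the displacements `s j`, whose
coefficients have the right averages (`avT`, `avT0`). -/
structure CD [Fintype ι] [Fintype κ] (H : Set (Fin n → ℝ)) (p : ι → Fin n → ℝ)
    (q : κ → Fin n → ℝ) (w : ι → κ → ℝ) (x S : ℝ) where
  Ω : Type
  mΩ : MeasurableSpace Ω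
  μ : Measure Ω
  hμ : IsProbabilityMeasure μ
  u : Ω → Fin n → ℝ
  hu : Measurable u
  v : Ω → ι
  hv : ∀ i, MeasurableSet {ω | v ω = i}
  c : Ω → ℝ
  hc : Integrable c μ
  ell : ℝ → Ω → ℝ
  hell : Measurable fun a : ℝ × Ω => ell a.1 a.2
  g : Ω → ℝ
  hg : Integrable g μ
  th : ℝ → Ω → κ → ℝ
  hth : ∀ j, Measurable fun a : ℝ × Ω => th a.1 a.2 j
  att : ∀ᵐ ω ∂μ, p (v ω) ⬝ᵥ u ω = 1
  pol : ∀ᵐ ω ∂μ, ∀ y, u ω ⬝ᵥ y ≤ gauge H y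
  cert : ∀ᵐ ω ∂μ, ∀ z : ℝ, 0 ≤ z → ∀ s : κ → ℝ, Ph p q (v ω) z s (u ω) ≤
    ENNReal.ofReal (Real.exp (c ω - ell z ω + ∑ j, th z ω j * s j))
  th0 : ∀ᵐ ω ∂μ, ∀ z : ℝ, 0 ≤ z → ∀ j, 0 ≤ th z ω j
  thsum : ∀ᵐ ω ∂μ, ∀ z : ℝ, 0 ≤ z → ∑ j, th z ω j = 1 + z
  avT : ∀ z : ℝ, 0 ≤ z → ∀ j, ∫ ω, th z ω j ∂μ = (1 + z) * ∑ i, w i j
  avT0 : ∀ i j, ∫ ω in {ω | v ω = i}, th 0 ω j ∂μ = w i j
  ell0 : ∀ᵐ ω ∂μ, ell 0 ω = 0
  ellm : ∀ᵐ ω ∂μ, ∀ z z' : ℝ, 0 ≤ z → z ≤ z' → ell z ω ≤ ell z' ω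
  elle : ∀ᵐ ω ∂μ, ∀ z : ℝ, 0 ≤ z → ell z ω ≤ n * Real.log (1 + z) + g ω
  low : ∀ z : ℝ, 0 ≤ z → mf n x z ≤ (∫ ω, ell z ω ∂μ) + S
  val : S = Real.log (volume H).toReal + n * (hh (n - 1) - Real.log 2) - ∫ ω, c ω ∂μ
  polar : ∀ F : (Fin n → ℝ) → ℝ≥0∞, Measurable F →
    ∫⁻ y, F y = (n : ℝ≥0∞) * volume (plr H) *
      ∫⁻ r in Ioi (0 : ℝ), ENNReal.ofReal (r ^ (n - 1)) * ∫⁻ ω, F (r • u ω) ∂μ

attribute [instance] CD.mΩ CD.hμ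

/-- a body with a certificate -/
def GG (n : ℕ) (H : Set (Fin n → ℝ)) (x S : ℝ) : Prop :=
  ∃ (ι κ : Type) (_ : Fintype ι) (_ : Fintype κ) (p : ι → Fin n → ℝ) (q : κ → Fin n → ℝ)
    (w : ι → κ → ℝ) (l : (Fin n → ℝ) → ι → ℝ), HD H p q w l ∧ Nonempty (CD H p q w x S)

/-- the segment -/
def S_SEG : Prop := GG 1 (Icc (-1) 1) 0 0

/-- free sums -/
def S_SUM : Prop := ∀ (a b : ℕ) (A : Set (Fin a → ℝ)) (B : Set (Fin b → ℝ)) (x y S T : ℝ),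
  1 ≤ a → 1 ≤ b → GG a A x S → GG b B y T → 0 ≤ x → x ≤ bb a → 0 ≤ y → y ≤ bb b →
  ∃ U, GG (a + b) (sumS A B) (x + y) U ∧ (¬ (a = 1 ∧ b = 1) → 0 < U)

/-- products with factors of dimension at least two -/
def S_PRO : Prop := ∀ (a b : ℕ) (A : Set (Fin a → ℝ)) (B : Set (Fin b → ℝ)) (x y S T : ℝ),
  2 ≤ a → 2 ≤ b → GG a A x S → GG b B y T → 0 ≤ x → x ≤ bb a → 0 ≤ y → y ≤ bb b →
  GG (a + b) (prodS A B) (x + y + 4 / 5) (S + T)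

/-- products with a segment -/
def S_PRI : Prop := ∀ (a : ℕ) (A : Set (Fin a → ℝ)) (x S : ℝ),
  2 ≤ a → GG a A x S → 0 ≤ x → x ≤ bb a → GG (a + 1) (prodS A (Icc (-1 : Fin 1 → ℝ) 1)) (x + 3 / 4) S

/-- **NF.** every Hanner polytope is a parallelepiped or has, up to a linear map, a certificate with
positive value -/
def S_NF : Prop := S_SEG → S_SUM → S_PRO → S_PRI → ∀ (n : ℕ) (H : Set (Fin n → ℝ)), Hanner n H →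
  (∃ e : (Fin n → ℝ) ≃ₗ[ℝ] (Fin n → ℝ), e '' H = Icc (-1) 1) ∨
  ∃ (e : (Fin n → ℝ) ≃ₗ[ℝ] (Fin n → ℝ)) (x S : ℝ), GG n (e '' H) x S ∧ 0 < S

/-- the constant of the segment, `log 2 - γ` -/
def DI : ℝ := Real.log 2 + ∫ y in Ioi (0 : ℝ), Real.exp (-y) * Real.log y

open Pool.Agent.W678.LM Pool.Agent.W686.LP in
/-- **FP.** bodies at distance `C / p` from a polytope with a certificate -/
def S_FP : Prop := ∀ (n : ℕ) (H : Set (Fin n → ℝ)) (x S C ε : ℝ), GG n H x S → 0 < C → 0 < ε →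
  ∃ p0 : ℝ, 1 < p0 ∧ ∀ p : ℝ, p0 ≤ p → ∀ K : Set (Fin n → ℝ), SB K → H ⊆ K →
    K ⊆ (1 + C / p) • H →
      Mi H * ENNReal.ofReal (Real.exp ((n * Real.log p + n * DI + S - ε) / p)) ≤ Mp p K

open Pool.Agent.W678.LM Pool.Agent.W686.LP in
/-- **CU.** the cube -/
def S_CU : Prop := ∀ (n : ℕ) (ε : ℝ), 0 < ε → ∃ p0 : ℝ, 1 < p0 ∧ ∀ p : ℝ, p0 ≤ p →
  Mp p (Cb n) ≤ ENNReal.ofReal (4 ^ n * Real.exp ((n * Real.log p + n * DI + ε) / p))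

/-- **PP.** polar coordinates for products -/
def S_PP : Prop := ∀ (a b : ℕ), 1 ≤ a → 1 ≤ b → ∀ f : ℝ → ℝ → ℝ≥0∞,
  (Measurable fun c : ℝ × ℝ => f c.1 c.2) →
  ((a.factorial * b.factorial : ℕ) : ℝ≥0∞) * (((a + b : ℕ) : ℝ≥0∞) *
    ∫⁻ r in Ioi (0 : ℝ), ENNReal.ofReal (r ^ (a + b - 1)) *
      ∫⁻ t, f (r * t) (r * (1 - t)) ∂(Bt a b)) =
  ((a + b).factorial : ℝ≥0∞) * (((a * b : ℕ) : ℝ≥0∞) *
    ∫⁻ r in Ioi (0 : ℝ), ENNReal.ofReal (r ^ (a - 1)) *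
      ∫⁻ s in Ioi (0 : ℝ), ENNReal.ofReal (s ^ (b - 1)) * f r s)

/-- **PS.** polar coordinates for free sums -/
def S_PS : Prop := ∀ (a b : ℕ), 1 ≤ a → 1 ≤ b → ∀ f : ℝ → ℝ → ℝ≥0∞,
  (Measurable fun c : ℝ × ℝ => f c.1 c.2) →
  (a : ℝ≥0∞) * (∫⁻ r in Ioi (0 : ℝ), ENNReal.ofReal (r ^ (a + b - 1)) *
      ∫⁻ t, f r (r * t) ∂(Bt b 1)) +
  (b : ℝ≥0∞) * (∫⁻ r in Ioi (0 : ℝ), ENNReal.ofReal (r ^ (a + b - 1)) *
      ∫⁻ t, f (r * t) r ∂(Bt a 1)) =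
  ((a * b : ℕ) : ℝ≥0∞) *
    ∫⁻ r in Ioi (0 : ℝ), ENNReal.ofReal (r ^ (a - 1)) *
      ∫⁻ s in Ioi (0 : ℝ), ENNReal.ofReal (s ^ (b - 1)) * f r s

end Pool.Agent.TH580.LM
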