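import Mathlib

set_option autoImplicit false

/-!
# Large `p` for all symmetric bodies: the comparison functions and their inequalities (statements)
-/

noncomputable section

namespace Pool.Agent.TH580.LM

open MeasureTheory Set

/-- harmonic numbers -/
def hh (n : ℕ) : ℝ := ∑ k ∈ Finset.range n, 1 / ((k : ℝ) + 1)

/-- `log (1 + z / 2)` -/
def lam (z : ℝ) : ℝ := Real.log (1 + z / 2)

/-- the second comparison function, `kap 0 = 0` -/
def kap (z : ℝ) : ℝ :=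
  (2 + z) * Real.log (2 + z) - z * Real.log z - Real.log (1 + z) - 2 * Real.log 2

/-- the comparison function in dimension `n` with defect `x` -/
def mf (n : ℕ) (x z : ℝ) : ℝ := (1 + x) * lam z + ((n : ℝ) - 1 - x) * kap z

/-- the bound for the defect -/
def bb (n : ℕ) : ℝ := if n ≤ 2 then 0 else 2 / 5 * n - 9 / 20

/-- the constant of a free sum -/
def CC (a b : ℕ) : ℝ :=
  1 + (a + b) * hh (a + b) - a * hh a - b * hh b - Real.log ((a + b).choose a)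

/-- density of the beta distribution with natural parameters `a, b ≥ 1` -/
def bd (a b : ℕ) (t : ℝ) : ℝ :=
  ((a + b - 1).factorial : ℝ) / ((a - 1).factorial * (b - 1).factorial) *
    (t ^ (a - 1) * (1 - t) ^ (b - 1))

/-- the beta distribution -/
def Bt (a b : ℕ) : Measure ℝ :=
  (volume.restrict (Ioo (0 : ℝ) 1)).withDensity fun t => ENNReal.ofReal (bd a b t)

/-- the function of a free sum -/
def WW (b : ℕ) (x z : ℝ) : ℝ :=
  ∫ r, (mf b x ((1 + z - r) / r) + Real.log ((1 + z - r) / ((1 + z) * (1 - r)))) ∂(Bt b 1)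

/-- **BT.** moments of the beta distributions -/
structure S_BT : Prop where
  prob : ∀ a b : ℕ, 1 ≤ a → 1 ≤ b → IsProbabilityMeasure (Bt a b)
  mean : ∀ a b : ℕ, 1 ≤ a → 1 ≤ b → Integrable (fun t : ℝ => t) (Bt a b) ∧
    ∫ t, t ∂(Bt a b) = (a : ℝ) / (a + b)
  log : ∀ a b : ℕ, 1 ≤ a → 1 ≤ b → Integrable (fun t : ℝ => Real.log t) (Bt a b) ∧
    ∫ t, Real.log t ∂(Bt a b) = hh (a - 1) - hh (a + b - 1)
  log1 : ∀ a b : ℕ, 1 ≤ a → 1 ≤ b → Integrable (fun t : ℝ => Real.log (1 - t)) (Bt a b) ∧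
    ∫ t, Real.log (1 - t) ∂(Bt a b) = hh (b - 1) - hh (a + b - 1)

/-- **MF.** elementary facts on the comparison functions -/
structure S_MF : Prop where
  kap0 : ∀ z : ℝ, 0 ≤ z → 0 ≤ kap z
  meas : ∀ (n : ℕ) (x : ℝ), Measurable (mf n x)
  /-- growth -/
  le : ∀ (n : ℕ) (x z : ℝ), 1 ≤ n → 0 ≤ x → x ≤ (n : ℝ) - 1 → 0 ≤ z →
    0 ≤ mf n x z ∧ mf n x z ≤ (n + 1) * (1 + Real.log (1 + z))
  /-- tangent lines in logarithmic scale -/
  tan : ∀ (n : ℕ) (x z s : ℝ), 1 ≤ n → 0 ≤ x → x ≤ (n : ℝ) - 1 → 0 < z → 0 < s →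
    mf n x z + z * ((1 + x) / (2 + z) + ((n : ℝ) - 1 - x) *
      (Real.log ((2 + z) / z) - 1 / (1 + z))) * Real.log s ≤ mf n x (s * z)

/-- **LI.** the product with a segment -/
def S_LI : Prop := ∀ a : ℕ, 2 ≤ a → ∀ z : ℝ, 0 < z →
  3 / 4 * lam z + 1 / 4 * kap z ≤ ∫ t, lam (1 / ((a : ℝ) + 1) * z / (1 - t)) ∂(Bt a 1)

/-- **PG.** the gain of a product -/
def S_PG : Prop := ∀ (a b : ℕ) (x y z : ℝ), 2 ≤ a → 2 ≤ b → 0 ≤ x → x ≤ bb a → 0 ≤ y → y ≤ bb b →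
  0 < z →
  1 / 5 * (kap z - lam z) ≤
    (Real.log ((a : ℝ) / (a + b)) + hh (a + b - 1) - hh (a - 1)) *
      (z * ((1 + x) / (2 + z) + ((a : ℝ) - 1 - x) * (Real.log ((2 + z) / z) - 1 / (1 + z)))) +
    (Real.log ((b : ℝ) / (a + b)) + hh (a + b - 1) - hh (b - 1)) *
      (z * ((1 + y) / (2 + z) + ((b : ℝ) - 1 - y) * (Real.log ((2 + z) / z) - 1 / (1 + z))))

/-- **WL.** a lower bound for the function of a free sum (`t = 1 / (1 + z)`) -/
def S_WL : Prop := ∀ (b : ℕ) (x z : ℝ), 1 ≤ b → 0 ≤ x → x ≤ bb b → 0 ≤ z →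
  (b : ℝ) * (kap z + 2 * Real.log 2 - 2 - Real.log (1 + z)) + 2 * ((b : ℝ) - 1) * (1 - Real.log 2) -
      Real.log 2 + b * Real.log (1 + z) + 1 + hh b -
      x * (kap z - lam z) - (if b ≤ 2 then 0 else
        (2 / 5 - 1 / (20 * ((b : ℝ) - 1))) * (hh b - 3 / 2 + Real.log 2)) ≤ WW b x z

/-- **NI.** the numerical inequality -/
def S_NI : Prop := ∀ a b : ℕ, 1 ≤ a → 1 ≤ b → ¬ (a = 1 ∧ b = 1) →
  (b : ℝ) / (a + b) * (if a ≤ 2 then 0 else
      (2 / 5 - 1 / (20 * ((a : ℝ) - 1))) * (hh a - 3 / 2 + Real.log 2)) +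
    (a : ℝ) / (a + b) * (if b ≤ 2 then 0 else
      (2 / 5 - 1 / (20 * ((b : ℝ) - 1))) * (hh b - 3 / 2 + Real.log 2)) <
    CC a b - 2 + Real.log 2

/-- **SU.** free sums: the consequence of `S_WL` and `S_NI` -/
def S_SU : Prop := ∀ (a b : ℕ) (x y z : ℝ), 1 ≤ a → 1 ≤ b → 0 ≤ x → x ≤ bb a → 0 ≤ y → y ≤ bb b →
  0 ≤ z →
  mf (a + b) (x + y) z ≤ CC a b - (b : ℝ) / (a + b) * (1 + hh a) - (a : ℝ) / (a + b) * (1 + hh b) +
    (a : ℝ) / (a + b) * (mf a x z + WW b y z) + (b : ℝ) / (a + b) * (mf b y z + WW a x z) ∧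
  (¬ (a = 1 ∧ b = 1) → 0 < CC a b - (b : ℝ) / (a + b) * (1 + hh a) -
    (a : ℝ) / (a + b) * (1 + hh b) + (a : ℝ) / (a + b) * WW b y 0 + (b : ℝ) / (a + b) * WW a x 0)

end Pool.Agent.TH580.LM
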